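import Pool.Agent.Y553.PL.Stm

/-!
# Project PL, part CARDS: the set `S` has at most `2 (K + 1)` elements
-/

set_option autoImplicit false

namespace Pool.Agent.Y810.PL

open Pool.Agent.Y553.PL Pool.Agent.Results.MP_abe753_lc.PlusNotLocal

/-- the partial orbit -/
theorem exists_orbit {V : Type} (G : CG V) (hS : Sax G) (e : V) :
    ∃ g : ℕ → V, ∀ (n : ℕ) (s : V), s ∈ G.colour 0 → Pow G n e s → ∃ i ≤ n, s = g i := by
  classical
  let F : V → V := fun u => if h : ∃ v, v ∈ G.colour 0 ∧ Step G u v then h.choose else u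
  have hF : ∀ u v, u ∈ G.colour 0 → v ∈ G.colour 0 → Step G u v → F u = v := by
    intro u v hu hv h
    have h1 : ∃ v, v ∈ G.colour 0 ∧ Step G u v := ⟨v, hv, h⟩
    have h2 : F u = h1.choose := dif_pos h1
    rw [h2]
    exact hS.out u hu _ h1.choose_spec.1 v hv h1.choose_spec.2 h
  refine ⟨fun n => F^[n] e, fun n => ?_⟩
  induction n with
  | zero =>
    intro s _ h
    exact ⟨0, le_rfl, h.symm⟩
  | succ n ih =>
    rintro s hs ⟨w, hw, h1, h2⟩
    obtain ⟨i, hi, hwi⟩ := ih w hw h1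
    rcases h2 with h2 | h2
    · exact ⟨i, by omega, by rw [← h2]; exact hwi⟩
    · refine ⟨i + 1, by omega, ?_⟩
      show s = F^[i + 1] e
      rw [Function.iterate_succ_apply']
      have h3 : w = F^[i] e := hwi
      rw [← h3]
      exact (hF w s hw hs h2).symm

theorem t_CARDS : St_CARDS := by
  classical
  intro V _ G hS K hK
  rcases Set.eq_empty_or_nonempty (G.colour 0) with h0 | ⟨s0, hs0⟩
  · rw [h0, Set.ncard_empty]
    omega
  obtain ⟨e1, he1, he1', -⟩ := hK s0 hs0
  obtain ⟨e2, he2⟩ : ∃ e2 : V, ∀ e, e ∈ G.colour 0 → e ∈ G.colour 6 → e = e1 ∨ e = e2 := by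
    by_cases h : ∃ e2, e2 ∈ G.colour 0 ∧ e2 ∈ G.colour 6 ∧ e2 ≠ e1
    · obtain ⟨e2, h1, h2, h3⟩ := h
      refine ⟨e2, fun e he he' => ?_⟩
      rcases hS.two e1 he1 e2 h1 e he he1' h2 he' with h4 | h4 | h4
      · exact absurd h4.symm h3
      · exact Or.inl h4.symm
      · exact Or.inr h4.symm
    · refine ⟨e1, fun e he he' => Or.inl ?_⟩
      by_contra h4
      exact h ⟨e, he, he', h4⟩
  obtain ⟨g1, hg1⟩ := exists_orbit G hS e1
  obtain ⟨g2, hg2⟩ := exists_orbit G hS e2
  set T : Finset V := (Finset.range (K + 1)).image g1 ∪ (Finset.range (K + 1)).image g2 with hT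
  have hsub : G.colour 0 ⊆ (T : Set V) := by
    intro s hs
    obtain ⟨e, he, he', hp⟩ := hK s hs
    rw [Finset.mem_coe, hT, Finset.mem_union, Finset.mem_image, Finset.mem_image]
    rcases he2 e he he' with rfl | rfl
    · obtain ⟨i, hi, hsi⟩ := hg1 K s hs hp
      exact Or.inl ⟨i, Finset.mem_range.2 (by omega), hsi.symm⟩
    · obtain ⟨i, hi, hsi⟩ := hg2 K s hs hp
      exact Or.inr ⟨i, Finset.mem_range.2 (by omega), hsi.symm⟩
  have h1 : (G.colour 0).ncard ≤ T.card := by
    rw [← Set.ncard_coe_finset T]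
    exact Set.ncard_le_ncard hsub (Finset.finite_toSet T)
  have h2 : T.card ≤ (K + 1) + (K + 1) := by
    refine (Finset.card_union_le _ _).trans (Nat.add_le_add ?_ ?_)
    · exact Finset.card_image_le.trans (by rw [Finset.card_range])
    · exact Finset.card_image_le.trans (by rw [Finset.card_range])
  omega

end Pool.Agent.Y810.PL
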